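import Mathlib

/-!
Closed discrete subspaces of regular strongly star-Hurewicz spaces have cardinality
less than lambda, where lambda is the least cardinal kappa between the bounding number
and the continuum with cof([kappa]^{aleph_0}) = kappa.
-/

set_option autoImplicit false

open Cardinal Set Filter

namespace Pool.Agent.Results.MP_bbbdfa_lc.ClosedDiscreteBound

universe u

/-- The star of `A` with respect to the family `𝒰`: the union of all members of `𝒰` that
meet `A`. -/
def star {X : Type u} (A : Set X) (𝒰 : Set (Set X)) : Set X :=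
  ⋃₀ {U | U ∈ 𝒰 ∧ (U ∩ A).Nonempty}

/-- `X` is strongly star-Hurewicz: for every sequence of open covers `𝒰 n` there are finite sets
`F n` such that every point lies in the star of `F n` with respect to `𝒰 n` for all but finitely
many `n`. -/
def StronglyStarHurewicz (X : Type u) [TopologicalSpace X] : Prop :=
  ∀ 𝒰 : ℕ → Set (Set X), (∀ n, (∀ U ∈ 𝒰 n, IsOpen U) ∧ ⋃₀ 𝒰 n = Set.univ) →
    ∃ F : ℕ → Finset X, ∀ x : X, ∀ᶠ n in atTop, x ∈ star (F n : Set X) (𝒰 n)

/-- The bounding number: the least size of a family of functions `ℕ → ℕ` which is unbounded under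
eventual domination. -/
noncomputable def bNumber : Cardinal.{0} :=
  sInf {κ | ∃ B : Set (ℕ → ℕ), (∀ g : ℕ → ℕ, ∃ f ∈ B, ¬ ∀ᶠ n in atTop, f n ≤ g n) ∧ #B = κ}

/-- `cof([κ]^{ℵ₀})`: the least size of a family of countable subsets of (a set of size) `κ` such
that every countable subset is contained in a member of the family. -/
noncomputable def cofCountable (κ : Cardinal.{0}) : Cardinal.{0} :=
  sInf {μ | ∃ C : Set (Set κ.out), (∀ A ∈ C, A.Countable) ∧
    (∀ A : Set κ.out, A.Countable → ∃ B ∈ C, A ⊆ B) ∧ #C = μ}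

/-- The cardinal `λ` of the problem: the least `κ` with `𝔟 ≤ κ ≤ 𝔠` and
`cof([κ]^{ℵ₀}) = κ`. -/
noncomputable def lam : Cardinal.{0} :=
  sInf {κ | bNumber ≤ κ ∧ κ ≤ 𝔠 ∧ cofCountable κ = κ}

/-! ### The bounding number is uncountable and at most the continuum -/

lemma bNumber_mem : ∃ B : Set (ℕ → ℕ),
    (∀ g : ℕ → ℕ, ∃ f ∈ B, ¬ ∀ᶠ n in atTop, f n ≤ g n) ∧ #B = bNumber := by
  have hne : {κ : Cardinal.{0} | ∃ B : Set (ℕ → ℕ),
      (∀ g : ℕ → ℕ, ∃ f ∈ B, ¬ ∀ᶠ n in atTop, f n ≤ g n) ∧ #B = κ}.Nonempty := by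
    refine ⟨#(univ : Set (ℕ → ℕ)), univ, ?_, rfl⟩
    intro g
    refine ⟨fun n => g n + 1, mem_univ _, ?_⟩
    intro h
    obtain ⟨n, hn⟩ := h.exists
    simp at hn
  exact csInf_mem hne

lemma unbounded_not_countable (B : Set (ℕ → ℕ))
    (hB : ∀ g : ℕ → ℕ, ∃ f ∈ B, ¬ ∀ᶠ n in atTop, f n ≤ g n) : ¬ B.Countable := by
  intro hc
  have hne : B.Nonempty := by
    obtain ⟨f, hf, _⟩ := hB 0
    exact ⟨f, hf⟩
  obtain ⟨e, he⟩ := hc.exists_eq_range hne
  obtain ⟨f, hf, hfn⟩ := hB (fun n => (Finset.range (n + 1)).sup (fun k => e k n))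
  rw [he] at hf
  obtain ⟨k, rfl⟩ := hf
  apply hfn
  filter_upwards [eventually_ge_atTop k] with n hn
  exact Finset.le_sup (f := fun k => e k n) (Finset.mem_range.2 (by omega))

lemma aleph0_lt_bNumber : ℵ₀ < bNumber := by
  obtain ⟨B, hB, hcard⟩ := bNumber_mem
  rw [← hcard]
  by_contra h
  push Not at h
  exact unbounded_not_countable B hB (by rwa [← Cardinal.le_aleph0_iff_set_countable])

lemma bNumber_le_continuum : bNumber ≤ 𝔠 := by
  have h1 : bNumber ≤ #(univ : Set (ℕ → ℕ)) := by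
    apply csInf_le'
    refine ⟨univ, ?_, rfl⟩
    intro g
    refine ⟨fun n => g n + 1, mem_univ _, ?_⟩
    intro h
    obtain ⟨n, hn⟩ := h.exists
    simp at hn
  refine h1.trans ?_
  simp

/-! ### The cardinal `λ` is well defined -/

lemma cofCountable_mem (κ : Cardinal.{0}) : ∃ C : Set (Set κ.out), (∀ A ∈ C, A.Countable) ∧
    (∀ A : Set κ.out, A.Countable → ∃ B ∈ C, A ⊆ B) ∧ #C = cofCountable κ := by
  have hne : {μ : Cardinal.{0} | ∃ C : Set (Set κ.out), (∀ A ∈ C, A.Countable) ∧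
    (∀ A : Set κ.out, A.Countable → ∃ B ∈ C, A ⊆ B) ∧ #C = μ}.Nonempty := by
    refine ⟨_, {A | A.Countable}, ?_, ?_, rfl⟩
    · intro A hA
      exact hA
    · intro A hA
      exact ⟨A, hA, subset_rfl⟩
  exact csInf_mem hne

lemma le_cofCountable (κ : Cardinal.{0}) (hκ : ℵ₀ < κ) : κ ≤ cofCountable κ := by
  obtain ⟨C, hC, hcov, hcard⟩ := cofCountable_mem κ
  rw [← hcard]
  by_contra hlt
  push Not at hlt
  have huniv : (⋃₀ C) = (univ : Set κ.out) := by
    apply eq_univ_of_forall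
    intro x
    obtain ⟨B, hB, hxB⟩ := hcov {x} (countable_singleton x)
    exact ⟨B, hB, hxB rfl⟩
  have h1 : #(⋃₀ C : Set κ.out) ≤ #C * ⨆ s : C, #s := Cardinal.mk_sUnion_le C
  have h2 : (⨆ s : C, #s) ≤ ℵ₀ := by
    apply ciSup_le'
    intro s
    exact Cardinal.le_aleph0_iff_set_countable.2 (hC s.1 s.2)
  have h3 : #(⋃₀ C : Set κ.out) = κ := by
    rw [huniv, Cardinal.mk_univ, Cardinal.mk_out]
  rw [h3] at h1
  have h4 : κ ≤ #C * ℵ₀ := h1.trans (mul_le_mul_right h2 _)
  have h5 : #C * ℵ₀ < κ := Cardinal.mul_lt_of_lt hκ.le hlt hκ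
  exact absurd (h4.trans_lt h5) (lt_irrefl _)

lemma cofCountable_continuum : cofCountable 𝔠 = 𝔠 := by
  apply le_antisymm
  · have hc : cofCountable 𝔠 ≤ #(range (fun f : ℕ → (𝔠 : Cardinal.{0}).out => range f)) := by
      apply csInf_le'
      refine ⟨_, ?_, ?_, rfl⟩
      · rintro A ⟨f, rfl⟩
        exact countable_range f
      · intro A hA
        by_cases hne : A.Nonempty
        · obtain ⟨f, hf⟩ := hA.exists_eq_range hne
          exact ⟨range f, ⟨f, rfl⟩, hf.le⟩
        · have : Nonempty (𝔠 : Cardinal.{0}).out := by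
            rw [← Cardinal.mk_ne_zero_iff, Cardinal.mk_out]
            exact Cardinal.continuum_ne_zero
          obtain ⟨a⟩ := this
          refine ⟨range (fun _ : ℕ => a), ⟨_, rfl⟩, ?_⟩
          rw [Set.not_nonempty_iff_eq_empty.1 hne]
          exact empty_subset _
    refine hc.trans (Cardinal.mk_range_le.trans ?_)
    simp
  · exact le_cofCountable 𝔠 Cardinal.aleph0_lt_continuum

lemma lam_mem : bNumber ≤ lam ∧ lam ≤ 𝔠 ∧ cofCountable lam = lam := by
  have hne : {κ | bNumber ≤ κ ∧ κ ≤ 𝔠 ∧ cofCountable κ = κ}.Nonempty :=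
    ⟨𝔠, bNumber_le_continuum, le_rfl, cofCountable_continuum⟩
  exact csInf_mem hne

/-! ### The diagonalising set mappings -/

lemma exists_mappings (κ : Cardinal.{0}) (hb : bNumber ≤ κ) (hcof : cofCountable κ = κ) :
    ∃ s : ℕ → κ.out → Finset κ.out, (∀ n i, i ∉ s n i) ∧
      ∀ u : ℕ → Finset κ.out, ∃ i, ∃ᶠ n in atTop, u n ⊆ s n i := by
  classical
  obtain ⟨C, hCc, hCcov, hCcard⟩ := cofCountable_mem κ
  obtain ⟨B, hB, hBcard⟩ := bNumber_mem
  have hκ : ℵ₀ < κ := aleph0_lt_bNumber.trans_le hb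
  have hinf : ℵ₀ ≤ κ := hκ.le
  -- an equivalence coding triples
  have hcard : #(κ.out) = #(C × B × κ.out) := by
    rw [Cardinal.mk_prod, Cardinal.mk_prod, Cardinal.lift_id, Cardinal.lift_id, Cardinal.lift_id,
      Cardinal.lift_id, hCcard, hcof, hBcard, Cardinal.mk_out]
    rw [Cardinal.mul_eq_right hinf hb (aleph0_lt_bNumber.ne_bot),
      Cardinal.mul_eq_self hinf]
  obtain ⟨e⟩ := Cardinal.eq.1 hcard
  -- enumerations of the countable sets
  have henum : ∀ c : C, ∃ g : κ.out → ℕ, Set.InjOn g c.1 := fun c =>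
    Set.countable_iff_exists_injOn.1 (hCc c.1 c.2)
  choose g hg using henum
  have hfin : ∀ (c : C) (m : ℕ), {x ∈ c.1 | g c x ≤ m}.Finite := by
    intro c m
    apply Set.Finite.of_finite_image (f := g c)
    · apply (Set.finite_Iic m).subset
      rintro _ ⟨x, hx, rfl⟩
      exact hx.2
    · intro x hx y hy hxy
      exact hg c hx.1 hy.1 hxy
  refine ⟨fun n i => ((hfin (e i).1 ((e i).2.1.1 n)).toFinset).erase i, ?_, ?_⟩
  · intro n i
    simp
  · intro u
    have hcount : (⋃ n, (u n : Set κ.out)).Countable :=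
      countable_iUnion fun n => (u n).countable_toSet
    obtain ⟨c, hcC, hc⟩ := hCcov _ hcount
    obtain ⟨f, hfB, hf⟩ := hB (fun n => (u n).sup (g ⟨c, hcC⟩))
    -- choose an index outside `c`
    obtain ⟨k, hk⟩ : ∃ k : κ.out, e.symm (⟨c, hcC⟩, ⟨f, hfB⟩, k) ∉ c := by
      by_contra hcon
      push Not at hcon
      have hinj : Function.Injective (fun k : κ.out => e.symm (⟨c, hcC⟩, ⟨f, hfB⟩, k)) := by
        intro k k' hkk
        have := e.symm.injective hkk
        simpa using this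
      have hrange : (range (fun k : κ.out => e.symm (⟨c, hcC⟩, ⟨f, hfB⟩, k))).Countable :=
        (hCc c hcC).mono (by rintro _ ⟨k, rfl⟩; exact hcon k)
      have h1 : #(range (fun k : κ.out => e.symm (⟨c, hcC⟩, ⟨f, hfB⟩, k))) = κ := by
        rw [Cardinal.mk_range_eq _ hinj, Cardinal.mk_out]
      have h2 := Cardinal.le_aleph0_iff_set_countable.2 hrange
      rw [h1] at h2
      exact absurd (hκ.trans_le h2) (lt_irrefl _)
    refine ⟨e.symm (⟨c, hcC⟩, ⟨f, hfB⟩, k), ?_⟩
    have hfreq : ∃ᶠ n in atTop, ¬ f n ≤ (u n).sup (g ⟨c, hcC⟩) := not_eventually.1 hf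
    refine hfreq.mono ?_
    intro n hn x hx
    have hxc : x ∈ c := hc (mem_iUnion.2 ⟨n, hx⟩)
    have hgx : g ⟨c, hcC⟩ x ≤ f n :=
      (Finset.le_sup (f := g ⟨c, hcC⟩) hx).trans (not_le.1 hn).le
    simp only [Equiv.apply_symm_apply, Finset.mem_erase, Set.Finite.mem_toFinset, Set.mem_ofPred_eq]
    refine ⟨?_, hxc, hgx⟩
    rintro rfl
    exact hk hxc

/-! ### Main theorem -/

/-- A closed discrete subspace of a regular strongly star-Hurewicz space cannot have an injective
image of a set of size `κ` if `𝔟 ≤ κ` and `cof([κ]^{ℵ₀}) = κ`. -/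
lemma no_embedding (X : Type u) [TopologicalSpace X] [T3Space X] (hX : StronglyStarHurewicz X)
    (κ : Cardinal.{0}) (hb : bNumber ≤ κ) (hcof : cofCountable κ = κ)
    (d : κ.out → X) (hd : Function.Injective d)
    (hclosed : ∀ S : Set κ.out, IsClosed (d '' S)) : False := by
  classical
  obtain ⟨s, hs, hu⟩ := exists_mappings κ hb hcof
  -- separate each point from the others
  have hV : ∀ i, ∃ V : Set X, IsOpen V ∧ d i ∈ V ∧ ∀ j, d j ∈ closure V → j = i := by
    intro i
    have hcl : IsClosed (d '' {j | j ≠ i}) := hclosed _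
    have hni : d i ∉ d '' {j | j ≠ i} := by
      rintro ⟨j, hj, hji⟩
      exact hj (hd hji)
    obtain ⟨V, hVo, hiV, hVc⟩ : ∃ V : Set X, IsOpen V ∧ d i ∈ V ∧
        closure V ⊆ (d '' {j | j ≠ i})ᶜ := by
      have hn : (d '' {j | j ≠ i})ᶜ ∈ nhds (d i) := hcl.isOpen_compl.mem_nhds hni
      obtain ⟨t, ht, htc, hts⟩ := exists_mem_nhds_isClosed_subset hn
      refine ⟨interior t, isOpen_interior, mem_interior_iff_mem_nhds.2 ht, ?_⟩
      exact (htc.closure_subset_iff.2 interior_subset).trans hts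
    refine ⟨V, hVo, hiV, ?_⟩
    intro j hj
    by_contra hne
    exact hVc hj ⟨j, hne, rfl⟩
  choose V hVo hdV hVc using hV
  -- the open sets of the covers
  let O : ℕ → κ.out → Set X := fun n i => V i ∩ (⋃ j ∈ s n i, closure (V j))ᶜ
  have hOo : ∀ n i, IsOpen (O n i) := by
    intro n i
    refine (hVo i).inter ?_
    rw [isOpen_compl_iff]
    exact (s n i).finite_toSet.isClosed_biUnion fun j _ => isClosed_closure
  have hdO : ∀ n i, d i ∈ O n i := by
    intro n i
    refine ⟨hdV i, ?_⟩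
    simp only [mem_compl_iff, mem_iUnion, not_exists]
    intro j hj hmem
    have := hVc j i hmem
    subst this
    exact hs n _ hj
  let 𝒰 : ℕ → Set (Set X) := fun n => insert (range d)ᶜ (range (O n))
  have hcov : ∀ n, (∀ U ∈ 𝒰 n, IsOpen U) ∧ ⋃₀ 𝒰 n = Set.univ := by
    intro n
    constructor
    · rintro U (rfl | ⟨i, rfl⟩)
      · have := hclosed univ
        rw [image_univ] at this
        exact this.isOpen_compl
      · exact hOo n i
    · apply eq_univ_of_forall
      intro x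
      by_cases hx : x ∈ range d
      · obtain ⟨i, rfl⟩ := hx
        exact ⟨O n i, Or.inr ⟨i, rfl⟩, hdO n i⟩
      · exact ⟨(range d)ᶜ, Or.inl rfl, hx⟩
  obtain ⟨F, hF⟩ := hX 𝒰 hcov
  -- for every point of `F n` met by some `O n i` choose such an index
  let β : ℕ → X → κ.out := fun n x =>
    if h : ∃ j, x ∈ O n j then h.choose else (Classical.choice (by
      rw [← Cardinal.mk_ne_zero_iff, Cardinal.mk_out]
      exact (aleph0_lt_bNumber.trans_le hb).ne_bot))
  have hβ : ∀ n x, (∃ j, x ∈ O n j) → x ∈ O n (β n x) := by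
    intro n x h
    simp only [β, dif_pos h]
    exact h.choose_spec
  obtain ⟨i, hi⟩ := hu (fun n => (F n).image (β n))
  have hev := hF (d i)
  obtain ⟨n, hn, hmem⟩ := (hi.and_eventually hev).exists
  obtain ⟨U, ⟨hU, x, hxU, hxF⟩, hdU⟩ := hmem
  rcases hU with rfl | ⟨j, rfl⟩
  · exact hdU ⟨i, rfl⟩
  · have hji : i = j := hVc j i (subset_closure hdU.1)
    subst hji
    have hβx := hβ n x ⟨i, hxU⟩
    have hmemβ : β n x ∈ s n i := hn (Finset.mem_image_of_mem _ (by simpa using hxF))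
    apply hxU.2
    simp only [mem_iUnion]
    exact ⟨β n x, hmemβ, subset_closure hβx.1⟩

/-- If `X` is a regular strongly star-Hurewicz space and `D` is a closed discrete subspace of `X`,
then `|D| < λ`. -/
theorem result (X : Type u) [TopologicalSpace X] [T3Space X] (hX : StronglyStarHurewicz X)
    (D : Set X) (hD : IsClosed D) (hdisc : DiscreteTopology D) :
    #D < Cardinal.lift.{u} lam := by
  by_contra hlt
  push Not at hlt
  obtain ⟨hb, -, hcof⟩ := lam_mem
  have hle : Cardinal.lift.{u} #(lam.out) ≤ Cardinal.lift.{0} #D := by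
    rw [Cardinal.mk_out, Cardinal.lift_uzero]
    exact hlt
  obtain ⟨φ⟩ := Cardinal.lift_mk_le'.1 hle
  refine no_embedding X hX lam hb hcof (fun i => (φ i : X))
    (fun i j hij => φ.injective (Subtype.ext hij)) ?_
  intro S
  have h1 : (fun i => (φ i : X)) '' S = Subtype.val '' (φ '' S) := by
    rw [image_image]
  rw [h1]
  exact hD.isClosedEmbedding_subtypeVal.isClosedMap _ (isClosed_discrete _)

end Pool.Agent.Results.MP_bbbdfa_lc.ClosedDiscreteBound
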